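import Pool.Agent.Lib.MP_abd978_an.UN.Interfaces

/-!
# Module EGO: good points (Egorov, Lebesgue points of the derivative)
-/

set_option autoImplicit false

open MeasureTheory Metric Set Filter Topology ContDiff
open scoped Gradient RealInnerProductSpace NNReal ENNReal

namespace Pool.Agent.Lib.MP_abd978_an.UN.H38

/-- the derivative of a locally Lipschitz map is bounded on compact sets -/
theorem bound_fderiv {n : ℕ} {Ω : Set (E n)} {f : E n → E n} (h : LocLip Ω f) {G : Set (E n)}
    (hG : IsCompact G) (hGΩ : G ⊆ Ω) : ∃ C : ℝ, 0 ≤ C ∧ ∀ y ∈ G, ‖fderiv ℝ f y‖ ≤ C := by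
  refine hG.induction_on (p := fun s => ∃ C : ℝ, 0 ≤ C ∧ ∀ y ∈ s, ‖fderiv ℝ f y‖ ≤ C)
    ⟨0, le_rfl, by simp⟩ ?_ ?_ ?_
  · rintro s t hst ⟨C, hC, h⟩
    exact ⟨C, hC, fun y hy => h y (hst hy)⟩
  · rintro s t ⟨C, hC, h⟩ ⟨C', hC', h'⟩
    refine ⟨max C C', le_max_of_le_left hC, ?_⟩
    rintro y (hy | hy)
    · exact (h y hy).trans (le_max_left _ _)
    · exact (h' y hy).trans (le_max_right _ _)
  · intro x hx
    obtain ⟨K, U, hU, hK⟩ := h x (hGΩ hx)
    exact ⟨interior U, mem_nhdsWithin_of_mem_nhds (interior_mem_nhds.2 hU), K, K.2,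
      fun y hy => norm_fderiv_le_of_lipschitzOn ℝ (mem_interior_iff_mem_nhds.1 hy) hK⟩

/-- locally Lipschitz maps are continuous -/
theorem contAt {n : ℕ} {Ω : Set (E n)} {f : E n → E n} (h : LocLip Ω f) {x : E n}
    (hx : x ∈ Ω) : ContinuousAt f x := by
  obtain ⟨K, U, hU, hK⟩ := h x hx
  exact hK.continuousOn.continuousAt hU

/-- operators with bounds `M` -/
def BM (n : ℕ) (M : ℝ) : Set (E n →L[ℝ] E n) := {A | ‖A‖ ≤ M ∧ ∀ v : E n, ‖v‖ ≤ M * ‖A v‖}

theorem isClosed_BM (n : ℕ) (M : ℝ) : IsClosed (BM n M) := by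
  have h1 : IsClosed {A : E n →L[ℝ] E n | ‖A‖ ≤ M} := isClosed_le continuous_norm continuous_const
  have h2 : IsClosed {A : E n →L[ℝ] E n | ∀ v : E n, ‖v‖ ≤ M * ‖A v‖} := by
    simp only [Set.ofPred_forall]
    refine isClosed_iInter fun v => isClosed_le continuous_const ?_
    exact continuous_const.mul ((ContinuousLinearMap.apply ℝ (E n) v).continuous.norm)
  exact h1.inter h2

theorem BM_mono (n : ℕ) {M M' : ℝ} (h : M ≤ M') : BM n M ⊆ BM n M' := by
  rintro A ⟨h1, h2⟩
  exact ⟨h1.trans h, fun v => (h2 v).trans (mul_le_mul_of_nonneg_right h (norm_nonneg _))⟩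

theorem exists_BM {n : ℕ} (A : E n →L[ℝ] E n) (hA : A.det ≠ 0) : ∃ M : ℕ, A ∈ BM n M := by
  have hinj : LinearMap.ker (A : E n →ₗ[ℝ] E n) = ⊥ := by
    have : IsUnit (A : E n →ₗ[ℝ] E n) := by
      rw [LinearMap.isUnit_iff_isUnit_det]
      exact isUnit_iff_ne_zero.2 hA
    exact (LinearMap.isUnit_iff_ker_eq_bot _).1 this
  obtain ⟨K, hK, h⟩ := LinearMap.exists_antilipschitzWith _ hinj
  obtain ⟨M, hM⟩ := exists_nat_ge (max ‖A‖ K)
  refine ⟨M, (le_max_left _ _).trans hM, fun v => ?_⟩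
  have h1 := h.le_mul_dist v 0
  simp only [dist_zero_right, map_zero] at h1
  refine h1.trans (mul_le_mul_of_nonneg_right ((le_max_right _ _).trans hM) (norm_nonneg _))

/-- the integrals of the differences of the derivative -/
noncomputable def GI {n : ℕ} (p : ℝ) (f : E n → E n) (r : ℝ) (x : E n) : ℝ :=
  ∫ y in ball x r, ‖fderiv ℝ f y - fderiv ℝ f x‖ ^ p

theorem measurable_GI {n : ℕ} (p : ℝ) (f : E n → E n) (r : ℝ) : Measurable (GI p f r) := by
  have h1 : Measurable fun z : E n × E n => ‖fderiv ℝ f z.2 - fderiv ℝ f z.1‖ ^ p :=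
    (((measurable_fderiv ℝ f).comp measurable_snd).sub
      ((measurable_fderiv ℝ f).comp measurable_fst)).norm.pow_const p
  have h2 : MeasurableSet {z : E n × E n | dist z.2 z.1 < r} :=
    measurableSet_lt (measurable_snd.dist measurable_fst) measurable_const
  have h3 : StronglyMeasurable (Function.uncurry fun x y : E n =>
      (ball x r).indicator (fun y => ‖fderiv ℝ f y - fderiv ℝ f x‖ ^ p) y) := by
    refine Measurable.stronglyMeasurable ?_
    have : (Function.uncurry fun x y : E n =>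
      (ball x r).indicator (fun y => ‖fderiv ℝ f y - fderiv ℝ f x‖ ^ p) y) =
      {z : E n × E n | dist z.2 z.1 < r}.indicator
        fun z => ‖fderiv ℝ f z.2 - fderiv ℝ f z.1‖ ^ p := by
      funext z
      by_cases hz : dist z.2 z.1 < r
      · rw [indicator_of_mem (show z ∈ {z : E n × E n | dist z.2 z.1 < r} from hz)]
        simp only [Function.uncurry]
        rw [indicator_of_mem (mem_ball.2 hz)]
      · rw [indicator_of_notMem (show z ∉ {z : E n × E n | dist z.2 z.1 < r} from hz)]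
        simp only [Function.uncurry]
        rw [indicator_of_notMem (fun h => hz (mem_ball.1 h))]
    rw [this]
    exact h1.indicator h2
  have h4 := h3.integral_prod_right (ν := (volume : Measure (E n)))
  have : GI p f r = fun x => ∫ y, (ball x r).indicator
      (fun y => ‖fderiv ℝ f y - fderiv ℝ f x‖ ^ p) y := by
    funext x
    rw [GI, integral_indicator measurableSet_ball]
  rw [this]
  exact h4.measurable

/-- the points with a uniform first order expansion -/
def Near {n : ℕ} (f : E n → E n) (c r : ℝ) (x : E n) : Prop :=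
  ∀ h ∈ ball (0 : E n) r, ‖f (x + h) - f x - fderiv ℝ f x h‖ ≤ c * ‖h‖

theorem measurableSet_near {n : ℕ} {f : E n → E n} (hf : Measurable f) (c r : ℝ) {K : Set (E n)}
    (hK : MeasurableSet K) (hc : ∀ x ∈ K, ∀ h ∈ ball (0 : E n) r, ContinuousAt f (x + h)) :
    MeasurableSet {x | x ∈ K ∧ Near f c r x} := by
  obtain ⟨D, hDc, hD⟩ := TopologicalSpace.exists_countable_dense (E n)
  have : {x | x ∈ K ∧ Near f c r x} =
      K ∩ ⋂ h ∈ D ∩ ball (0 : E n) r, {x | ‖f (x + h) - f x - fderiv ℝ f x h‖ ≤ c * ‖h‖} := by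
    ext x
    constructor
    · rintro ⟨hx, hn⟩
      refine ⟨hx, ?_⟩
      simp only [mem_iInter]
      exact fun h hh => hn h hh.2
    · rintro ⟨hx, hn⟩
      simp only [mem_iInter] at hn
      refine ⟨hx, fun h hh => ?_⟩
      have hcl : h ∈ closure (ball (0 : E n) r ∩ D) := hD.open_subset_closure_inter isOpen_ball hh
      have : (𝓝[ball (0 : E n) r ∩ D] h).NeBot := mem_closure_iff_nhdsWithin_neBot.1 hcl
      have hcx : ContinuousAt (fun h => f (x + h)) h :=
        ContinuousAt.comp (g := f) (hc x hx h hh) (continuous_const.add continuous_id).continuousAt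
      have hct : Tendsto (fun h => ‖f (x + h) - f x - fderiv ℝ f x h‖)
          (𝓝[ball (0 : E n) r ∩ D] h) (𝓝 ‖f (x + h) - f x - fderiv ℝ f x h‖) :=
        (((hcx.sub continuousAt_const).sub
          (fderiv ℝ f x).continuous.continuousAt).norm).tendsto.mono_left nhdsWithin_le_nhds
      have hct' : Tendsto (fun h : E n => c * ‖h‖) (𝓝[ball (0 : E n) r ∩ D] h) (𝓝 (c * ‖h‖)) :=
        ((continuous_const.mul continuous_norm).tendsto h).mono_left nhdsWithin_le_nhds
      refine le_of_tendsto_of_tendsto hct hct' ?_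
      filter_upwards [self_mem_nhdsWithin] with g hg
      exact hn g ⟨hg.2, hg.1⟩
  rw [this]
  refine hK.inter (MeasurableSet.biInter (hDc.mono inter_subset_left) fun h _ => ?_)
  refine measurableSet_le ?_ measurable_const
  exact (((hf.comp (measurable_id.add_const h)).sub hf).sub
    (measurable_fderiv_apply_const ℝ f h)).norm

/-- a decreasing sequence of radii -/
noncomputable def tk (ρ : ℝ) (k : ℕ) : ℝ := ρ * (1 / 2) ^ k

theorem tk_pos {ρ : ℝ} (h : 0 < ρ) (k : ℕ) : 0 < tk ρ k := by unfold tk; positivity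

theorem tk_succ (ρ : ℝ) (k : ℕ) : tk ρ (k + 1) = tk ρ k / 2 := by unfold tk; ring

theorem tk_anti {ρ : ℝ} (h : 0 < ρ) : Antitone (tk ρ) := by
  refine antitone_nat_of_succ_le fun k => ?_
  rw [tk_succ]
  have := tk_pos h k
  linarith

theorem tk_lim (ρ : ℝ) : Tendsto (tk ρ) atTop (𝓝 0) := by
  have := (tendsto_pow_atTop_nhds_zero_of_lt_one (by norm_num : (0 : ℝ) ≤ 1 / 2)
    (by norm_num)).const_mul ρ
  rw [mul_zero] at this
  exact this

/-- for `0 < s < tk ρ j` there is `k ≥ j` with `tk ρ (k+1) ≤ s < tk ρ k` -/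
theorem exists_tk {ρ s : ℝ} (hρ : 0 < ρ) (hs : 0 < s) (j : ℕ) (hj : s < tk ρ j) :
    ∃ k, j ≤ k ∧ tk ρ (k + 1) ≤ s ∧ s < tk ρ k := by
  have hex : ∃ k, tk ρ k ≤ s := by
    obtain ⟨k, hk⟩ := ((tk_lim ρ).eventually (gt_mem_nhds hs)).exists
    exact ⟨k, hk.le⟩
  classical
  have h0 := Nat.find_spec hex
  have hlt : j < Nat.find hex := by
    by_contra hcon
    push Not at hcon
    have := tk_anti hρ hcon
    linarith
  obtain ⟨k, hk⟩ : ∃ k, Nat.find hex = k + 1 := ⟨Nat.find hex - 1, by omega⟩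
  refine ⟨k, by omega, hk ▸ h0, ?_⟩
  have := Nat.find_min hex (m := k) (by omega)
  push Not at this
  exact this

/-- Lebesgue points of the derivative -/
theorem mean_ae {n : ℕ} {p ρ : ℝ} (hp : 1 < p) (hρ : 0 < ρ) {Ω : Set (E n)} {f : E n → E n}
    (hl : LocLip Ω f) {K : Set (E n)} (hK : IsCompact K) (hKΩ : cthickening ρ K ⊆ Ω) :
    ∀ᵐ x : E n, x ∈ K → ∀ c : ℝ, 0 < c → ∃ j : ℕ, ∀ k, j ≤ k →
      GI p f (tk ρ k) x ≤ c * tk ρ k ^ n := by
  have hGc : IsCompact (cthickening ρ K) := hK.cthickening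
  obtain ⟨C, hC0, hC⟩ := bound_fderiv hl hGc hKΩ
  have hUG : thickening ρ K ⊆ cthickening ρ K := thickening_subset_cthickening ρ K
  have hUf : volume (thickening ρ K) ≠ ⊤ :=
    ((measure_mono hUG).trans_lt hGc.measure_lt_top).ne
  have hms : StronglyMeasurable (fderiv ℝ f) := (measurable_fderiv ℝ f).stronglyMeasurable
  set g : E n → (E n →L[ℝ] E n) := (thickening ρ K).indicator (fderiv ℝ f) with hg
  have hgi : Integrable g := by
    have hmU : MeasurableSet (thickening ρ K) := isOpen_thickening.measurableSet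
    have h0 : IntegrableOn (fderiv ℝ f) (thickening ρ K) := by
      refine Measure.integrableOn_of_bounded (M := C) hUf hms.aestronglyMeasurable ?_
      filter_upwards [ae_restrict_mem hmU] with y hy
      exact hC y (hUG hy)
    exact IntegrableOn.integrable_indicator (f := fderiv ℝ f) h0 hmU
  filter_upwards [IsUnifLocDoublingMeasure.ae_tendsto_average_norm_sub (μ := volume)
    hgi.locallyIntegrable 1] with x hx hxK c hc
  have ht0 : Tendsto (tk ρ) atTop (𝓝[>] 0) :=
    tendsto_nhdsWithin_iff.2 ⟨tk_lim ρ, Eventually.of_forall fun k => tk_pos hρ k⟩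
  have h1 := hx (fun _ : ℕ => x) (tk ρ) ht0 (Eventually.of_forall fun k => by
    simp only [one_mul]; exact mem_closedBall_self (tk_pos hρ k).le)
  set om : ℝ := volume.real (ball (0 : E n) 1) with hom
  have hom0 : 0 ≤ om := measureReal_nonneg
  have h2 : Tendsto (fun k => (2 * C) ^ (p - 1) * om *
      ⨍ y in closedBall x (tk ρ k), ‖g y - g x‖) atTop (𝓝 0) := by
    have := h1.const_mul ((2 * C) ^ (p - 1) * om)
    rwa [mul_zero] at this
  obtain ⟨j, hj⟩ := eventually_atTop.1 (h2.eventually (gt_mem_nhds hc))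
  refine ⟨j, fun k hk => ?_⟩
  have h3 := (hj k hk).le
  have htk := tk_pos hρ k
  have htρ : tk ρ k ≤ ρ := by
    have := tk_anti hρ (Nat.zero_le k)
    simpa [tk] using this
  have hbU : ball x (tk ρ k) ⊆ thickening ρ K := fun y hy =>
    mem_thickening_iff.2 ⟨x, hxK, (mem_ball.1 hy).trans_le htρ⟩
  have hxU : x ∈ thickening ρ K := hbU (mem_ball_self htk)
  have hgx : g x = fderiv ℝ f x := indicator_of_mem hxU _
  have hint : IntegrableOn (fun y => ‖g y - g x‖) (closedBall x (tk ρ k)) :=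
    ((hgi.integrableOn).sub (integrableOn_const (by
      exact (isCompact_closedBall x _).measure_lt_top.ne))).norm
  have hvol : volume.real (closedBall x (tk ρ k)) = tk ρ k ^ n * om := by
    have := Measure.addHaar_real_closedBall (volume : Measure (E n)) x htk.le
    rw [this]
    simp [hom]
  have h4 : GI p f (tk ρ k) x ≤ (2 * C) ^ (p - 1) * ∫ y in closedBall x (tk ρ k), ‖g y - g x‖ := by
    have e1 : ∀ y ∈ ball x (tk ρ k), ‖fderiv ℝ f y - fderiv ℝ f x‖ ^ p ≤
        (2 * C) ^ (p - 1) * ‖g y - g x‖ := by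
      intro y hy
      have hgy : g y = fderiv ℝ f y := indicator_of_mem (hbU hy) _
      rw [hgy, hgx]
      have hle : ‖fderiv ℝ f y - fderiv ℝ f x‖ ≤ 2 * C := by
        refine (norm_sub_le _ _).trans ?_
        have := hC y (hUG (hbU hy))
        have := hC x (hUG hxU)
        linarith
      rcases (norm_nonneg (fderiv ℝ f y - fderiv ℝ f x)).eq_or_lt with h0 | h0
      · rw [← h0, Real.zero_rpow (by linarith), mul_zero]
      · have : ‖fderiv ℝ f y - fderiv ℝ f x‖ ^ p = ‖fderiv ℝ f y - fderiv ℝ f x‖ ^ (p - 1) *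
            ‖fderiv ℝ f y - fderiv ℝ f x‖ := by
          rw [← Real.rpow_add_one h0.ne']; ring_nf
        rw [this]
        exact mul_le_mul_of_nonneg_right (Real.rpow_le_rpow h0.le hle (by linarith)) h0.le
    have e2 : IntegrableOn (fun y => (2 * C) ^ (p - 1) * ‖g y - g x‖) (ball x (tk ρ k)) :=
      (hint.mono_set ball_subset_closedBall).const_mul _
    calc GI p f (tk ρ k) x ≤ ∫ y in ball x (tk ρ k), (2 * C) ^ (p - 1) * ‖g y - g x‖ := by
          refine setIntegral_mono_on ?_ e2 measurableSet_ball e1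
          refine e2.mono' ?_ ?_
          · exact ((hms.sub stronglyMeasurable_const).norm.measurable.pow_const p
              ).aestronglyMeasurable
          · filter_upwards [ae_restrict_mem measurableSet_ball] with y hy
            rw [Real.norm_of_nonneg (by positivity)]
            exact e1 y hy
      _ = (2 * C) ^ (p - 1) * ∫ y in ball x (tk ρ k), ‖g y - g x‖ := integral_const_mul _ _
      _ ≤ (2 * C) ^ (p - 1) * ∫ y in closedBall x (tk ρ k), ‖g y - g x‖ := by
          refine mul_le_mul_of_nonneg_left ?_ (by positivity)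
          exact setIntegral_mono_set hint (Eventually.of_forall fun y => norm_nonneg _)
            (Eventually.of_forall ball_subset_closedBall)
  have h5 : ∫ y in closedBall x (tk ρ k), ‖g y - g x‖ = tk ρ k ^ n * om *
      ⨍ y in closedBall x (tk ρ k), ‖g y - g x‖ := by
    rw [setAverage_eq, hvol, smul_eq_mul]
    rcases hom0.eq_or_lt with h0 | h0
    · have : volume (closedBall x (tk ρ k)) = 0 := by
        have := hvol
        rw [← h0, mul_zero, measureReal_eq_zero_iff
          ((isCompact_closedBall x _).measure_lt_top.ne)] at this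
        exact this
      rw [Measure.restrict_eq_zero.2 this]
      simp
    · field_simp
  calc GI p f (tk ρ k) x ≤ _ := h4
    _ = ((2 * C) ^ (p - 1) * om * ⨍ y in closedBall x (tk ρ k), ‖g y - g x‖) * tk ρ k ^ n := by
        rw [h5]; ring
    _ ≤ c * tk ρ k ^ n := mul_le_mul_of_nonneg_right h3 (by positivity)

theorem ne_zero_of_BM {N : ℕ} {M : ℝ} {A : E (N + 1) →L[ℝ] E (N + 1)} (h : A ∈ BM (N + 1) M) :
    A ≠ 0 := by
  intro h0
  have h1 := h.2 (EuclideanSpace.single 0 1)
  rw [h0] at h1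
  simp at h1
  linarith

/-- decreasing sequences of sets with null intersection -/
theorem exists_small {n : ℕ} {K : Set (E n)} (hK : volume K ≠ ⊤) {D : ℕ → Set (E n)}
    (hm : ∀ j, MeasurableSet (D j)) (hD : Antitone D) (h0 : D 0 ⊆ K)
    (h : ∀ᵐ x : E n, ∃ j, x ∉ D j) {δ : ℝ} (hδ : 0 < δ) :
    ∃ j, 1 ≤ j ∧ volume (D j) ≤ ENNReal.ofReal δ := by
  have ht : Tendsto (fun j => volume (D j)) atTop (𝓝 (volume (⋂ j, D j))) :=
    tendsto_measure_iInter_atTop (fun j => (hm j).nullMeasurableSet) hD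
      ⟨0, ((measure_mono h0).trans_lt hK.lt_top).ne⟩
  have hz : volume (⋂ j, D j) = 0 := by
    rw [measure_eq_zero_iff_ae_notMem]
    filter_upwards [h] with x hx hmem
    obtain ⟨j, hj⟩ := hx
    exact hj (mem_iInter.1 hmem j)
  rw [hz] at ht
  obtain ⟨j, hj1, hj2⟩ := ((eventually_ge_atTop 1).and
    (ht.eventually (gt_mem_nhds (ENNReal.ofReal_pos.2 hδ)))).exists
  exact ⟨j, hj1, hj2.le⟩

/-- EGO -/
theorem ego : EgoStatement := by
  intro N p Ω f hS K hK hKΩ δ hδ
  have hp : 1 < p := by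
    have h1 := hS.hp
    have h2 : (0 : ℝ) ≤ N := Nat.cast_nonneg N
    linarith
  have hLm : Measurable (fderiv ℝ f) := measurable_fderiv ℝ f
  have hKm : MeasurableSet K := hK.measurableSet
  have hKf : volume K ≠ ⊤ := hK.measure_lt_top.ne
  have hSm : MeasurableSet {x | x ∈ K ∧ fderiv ℝ f x ≠ 0} :=
    hKm.inter (hLm (isClosed_singleton (x := (0 : E (N + 1) →L[ℝ] E (N + 1)))).measurableSet.compl)
  have hKMm : ∀ M : ℝ, MeasurableSet {x | x ∈ K ∧ fderiv ℝ f x ∈ BM (N + 1) M} := fun M =>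
    hKm.inter (hLm (isClosed_BM _ _).measurableSet)
  obtain ⟨M, hM1, hM⟩ := exists_small hKf (D := fun M : ℕ => {x | x ∈ K ∧ fderiv ℝ f x ≠ 0} \
      {x | x ∈ K ∧ fderiv ℝ f x ∈ BM (N + 1) M}) (fun M => hSm.diff (hKMm M))
    (by
      intro M M' hMM
      exact sdiff_subset_sdiff_right fun x hx => ⟨hx.1, BM_mono _ (by exact_mod_cast hMM) hx.2⟩)
    (fun x hx => hx.1.1)
    (by
      filter_upwards [hS.inv] with x hx
      by_cases hxK : x ∈ K
      · rcases hx (hKΩ hxK) with h | h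
        · exact ⟨0, fun hm => hm.1.2 h⟩
        · obtain ⟨M, hM⟩ := exists_BM _ h
          exact ⟨M, fun hm => hm.2 ⟨hxK, hM⟩⟩
      · exact ⟨0, fun hm => hxK hm.1.1⟩) (half_pos hδ)
  have hMr : (1 : ℝ) ≤ M := by exact_mod_cast hM1
  have hM0 : (0 : ℝ) < 4 * M := by linarith
  refine ⟨M, hMr, fun η hη => ?_⟩
  obtain ⟨ρ, hρ, hρΩ⟩ := hK.exists_cthickening_subset_open hS.isOpen hKΩ
  have htρ : ∀ k, tk ρ k ≤ ρ := fun k => by
    have := tk_anti hρ (Nat.zero_le k)
    simpa [tk] using this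
  set c : ℝ := η / (4 * M) with hc
  have hc0 : 0 < c := by positivity
  set B : ℕ → Set (E (N + 1)) := fun j => {x | (x ∈ {x | x ∈ K ∧ fderiv ℝ f x ∈ BM (N + 1) M} ∧
    Near f c (tk ρ j) x) ∧ ∀ k, j ≤ k → GI p f (tk ρ k) x ≤ η * (tk ρ (k + 1) / (4 * M)) ^ (N + 1)}
    with hB
  have hBm : ∀ j, MeasurableSet (B j) := by
    intro j
    refine (measurableSet_near hS.meas c (tk ρ j) (hKMm M) ?_).inter ?_
    · intro x hx h hh
      refine contAt hS.loclip (hρΩ ?_)
      refine mem_cthickening_of_dist_le _ x ρ K hx.1 ?_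
      rw [dist_eq_norm, add_sub_cancel_left]
      exact ((mem_ball_zero_iff.1 hh).le).trans (htρ j)
    · have : {x : E (N + 1) | ∀ k, j ≤ k →
          GI p f (tk ρ k) x ≤ η * (tk ρ (k + 1) / (4 * M)) ^ (N + 1)} =
          ⋂ k, ⋂ (_ : j ≤ k), {x | GI p f (tk ρ k) x ≤
            η * (tk ρ (k + 1) / (4 * M)) ^ (N + 1)} := by
        ext x
        simp
      have h6 : MeasurableSet (⋂ k, ⋂ (_ : j ≤ k), {x : E (N + 1) | GI p f (tk ρ k) x ≤
            η * (tk ρ (k + 1) / (4 * M)) ^ (N + 1)}) :=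
        MeasurableSet.iInter fun k => MeasurableSet.iInter fun _ =>
          measurableSet_le (measurable_GI p f _) measurable_const
      rw [← this] at h6
      exact h6
  have hBmono : Monotone B := by
    intro j j' hj x hx
    exact ⟨⟨hx.1.1, fun h hh => hx.1.2 h (ball_subset_ball (tk_anti hρ hj) hh)⟩,
      fun k hk => hx.2 k (hj.trans hk)⟩
  have hdiff : ∀ x, fderiv ℝ f x ∈ BM (N + 1) M → DifferentiableAt ℝ f x := by
    intro x hx
    by_contra hcon
    exact ne_zero_of_BM hx (fderiv_zero_of_not_differentiableAt hcon)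
  obtain ⟨j, -, hj⟩ := exists_small hKf
    (D := fun j => {x | x ∈ K ∧ fderiv ℝ f x ∈ BM (N + 1) M} \ B j)
    (fun j => (hKMm M).diff (hBm j))
    (fun j j' hjj => sdiff_subset_sdiff_right (hBmono hjj)) (fun x hx => hx.1.1)
    (by
      filter_upwards [mean_ae hp hρ hS.loclip hK hρΩ] with x hx
      by_cases hxK : x ∈ {x | x ∈ K ∧ fderiv ℝ f x ∈ BM (N + 1) M}
      · obtain ⟨j1, hj1⟩ := hx hxK.1 (η / (8 * M) ^ (N + 1)) (by positivity)
        have h2 := (hdiff x hxK.2).hasFDerivAt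
        rw [hasFDerivAt_iff_isLittleO_nhds_zero] at h2
        have h3 := h2.def hc0
        obtain ⟨r, hr, h4⟩ := Metric.eventually_nhds_iff_ball.1 h3
        obtain ⟨j2, hj2⟩ := ((tk_lim ρ).eventually (gt_mem_nhds hr)).exists
        refine ⟨max j1 j2, fun hm => hm.2 ⟨⟨hxK, fun h hh => ?_⟩, fun k hk => ?_⟩⟩
        · refine h4 h (ball_subset_ball ?_ hh)
          exact (tk_anti hρ (le_max_right _ _)).trans hj2.le
        · refine (hj1 k ((le_max_left _ _).trans hk)).trans (le_of_eq ?_)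
          rw [tk_succ, div_div, div_mul_eq_mul_div, mul_div_assoc, ← div_pow]
          congr 2
          ring
      · exact ⟨0, fun hm => hxK hm.1⟩) (half_pos hδ)
  refine ⟨B j, tk ρ j / (4 * M), hBm j, fun x hx => hx.1.1.1, div_pos (tk_pos hρ j) hM0, ?_, ?_⟩
  · rw [measureReal_def]
    refine ENNReal.toReal_le_of_le_ofReal hδ.le ?_
    calc volume {x | x ∈ K ∧ x ∉ B j ∧ fderiv ℝ f x ≠ 0}
        ≤ volume (({x | x ∈ K ∧ fderiv ℝ f x ≠ 0} \
            {x | x ∈ K ∧ fderiv ℝ f x ∈ BM (N + 1) M}) ∪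
            ({x | x ∈ K ∧ fderiv ℝ f x ∈ BM (N + 1) M} \ B j)) := by
          refine measure_mono ?_
          rintro x ⟨h1, h2, h3⟩
          by_cases h : x ∈ {x | x ∈ K ∧ fderiv ℝ f x ∈ BM (N + 1) M}
          · exact Or.inr ⟨h, h2⟩
          · exact Or.inl ⟨⟨h1, h3⟩, h⟩
      _ ≤ ENNReal.ofReal (δ / 2) + ENNReal.ofReal (δ / 2) :=
          (measure_union_le _ _).trans (add_le_add hM hj)
      _ = ENNReal.ofReal δ := by
          rw [← ENNReal.ofReal_add (by positivity) (by positivity), add_halves]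
  · intro x hx
    have hlt : ∀ ε : ℝ, ε < tk ρ j / (4 * M) → 4 * M * ε < tk ρ j := by
      intro ε hε
      rw [lt_div_iff₀ hM0] at hε
      linarith
    refine ⟨hdiff x hx.1.1.2, hx.1.1.2.1, hx.1.1.2.2, ?_, ?_, ?_⟩
    · intro ε hε0 hε y hy
      refine hρΩ (mem_cthickening_of_dist_le y x ρ K hx.1.1.1 ?_)
      exact (mem_closedBall.1 hy).trans ((hlt ε hε).le.trans (htρ j))
    · intro ε hε0 hε y hy
      have hyx : ‖y - x‖ ≤ 4 * M * ε := by
        rw [← dist_eq_norm]; exact mem_closedBall.1 hy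
      have h1 := hx.1.2 (y - x) (mem_ball_zero_iff.2 (hyx.trans_lt (hlt ε hε)))
      rw [add_sub_cancel] at h1
      refine h1.trans ?_
      calc c * ‖y - x‖ ≤ c * (4 * M * ε) := mul_le_mul_of_nonneg_left hyx hc0.le
        _ = η * ε := by rw [hc]; field_simp
    · intro ε hε0 hε
      obtain ⟨k, hk, hk1, hk2⟩ := exists_tk hρ (mul_pos hM0 hε0) j (hlt ε hε)
      obtain ⟨C, hC0, hC⟩ := bound_fderiv hS.loclip hK.cthickening hρΩ
      have hxc : x ∈ cthickening ρ K := self_subset_cthickening K hx.1.1.1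
      have hint : IntegrableOn (fun y => ‖fderiv ℝ f y - fderiv ℝ f x‖ ^ p) (ball x (tk ρ k)) := by
        refine Measure.integrableOn_of_bounded (M := (2 * C) ^ p)
          (measure_ball_lt_top.ne) ?_ ?_
        · exact ((hLm.sub_const _).norm.pow_const p).aestronglyMeasurable
        · filter_upwards [ae_restrict_mem measurableSet_ball] with y hy
          have hyc : y ∈ cthickening ρ K := mem_cthickening_of_dist_le y x ρ K hx.1.1.1
            ((mem_ball.1 hy).le.trans (htρ k))
          rw [Real.norm_of_nonneg (by positivity)]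
          refine Real.rpow_le_rpow (norm_nonneg _) ?_ (by linarith)
          refine (norm_sub_le _ _).trans ?_
          have := hC y hyc
          have := hC x hxc
          linarith
      calc ∫ y in ball x (4 * M * ε), ‖fderiv ℝ f y - fderiv ℝ f x‖ ^ p
          ≤ GI p f (tk ρ k) x := setIntegral_mono_set hint
            (Eventually.of_forall fun y => by positivity)
            (Eventually.of_forall (ball_subset_ball hk2.le))
        _ ≤ η * (tk ρ (k + 1) / (4 * M)) ^ (N + 1) := hx.2 k hk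
        _ ≤ η * ε ^ (N + 1) := by
            refine mul_le_mul_of_nonneg_left (pow_le_pow_left₀ ?_ ?_ _) hη.le
            · exact (div_pos (tk_pos hρ _) hM0).le
            · rw [div_le_iff₀ hM0]; linarith

end Pool.Agent.Lib.MP_abd978_an.UN.H38
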