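import Pool.Agent.Lib.MP_abd978_an.UN.Interfaces

/-!
# Module QO: quasi-openness
-/

set_option autoImplicit false

open MeasureTheory Metric Set Filter Topology ContDiff
open scoped Gradient RealInnerProductSpace NNReal ENNReal

namespace Pool.Agent.Lib.MP_abd978_an.UN.H38

/-- QO -/
theorem qo (hpotb : PotbStatement) (hpotx : PotxStatement) (hpharm : PharmStatement)
    (hhalg : HalgStatement) (hharn : HarnStatement) : QoStatement := by
  intro n p a α β b α' β' hD
  obtain ⟨c, C, hc, hC, hP⟩ := hpotb n p a α β hD.hn hD.hp hD.opa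
  obtain ⟨CH, hCH, hH⟩ := hharn n p volume b α' β' hD.opb
  have hn : (2 : ℝ) ≤ n := by exact_mod_cast hD.hn
  have hal : 0 < al n p := div_pos (sub_pos.2 hD.hp) (by linarith [hD.hp])
  have hq : 0 < CH * C / c := by positivity
  refine ⟨(CH * C / c) ^ (1 / al n p), Real.rpow_pos_of_pos hq _, ?_⟩
  intro Ω f hf x r y hr hrΩ hy z hz
  have hKΩ : closedBall x (r / 2) ⊆ Ω :=
    (closedBall_subset_closedBall (by linarith)).trans hrΩ
  have hK : IsCompact (closedBall x (r / 2)) := isCompact_closedBall x _
  have hcont : ContinuousOn (fun w => dist (f w) y) (closedBall x (r / 2)) :=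
    (continuous_id.dist continuous_const).comp_continuousOn (hf.cont.mono hKΩ)
  have hne : (closedBall x (r / 2)).Nonempty := ⟨x, mem_closedBall_self (by positivity)⟩
  obtain ⟨w0, hw0, hmin⟩ := hK.exists_isMinOn hne hcont
  obtain ⟨w1, hw1, hmax⟩ := hK.exists_isMaxOn hne hcont
  set d₀ := dist (f w0) y with hd₀
  set M₀ := dist (f w1) y with hM₀
  have hmin' : ∀ w ∈ closedBall x (r / 2), d₀ ≤ dist (f w) y := fun w hw => hmin hw
  have hmax' : ∀ w ∈ closedBall x (r / 2), dist (f w) y ≤ M₀ := fun w hw => hmax hw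
  have hd₀pos : 0 < d₀ := by
    refine dist_pos.2 fun h => hy ⟨w0, ?_, h⟩
    exact closedBall_subset_ball (by linarith) hw0
  have hdM : d₀ ≤ M₀ := hmin' w1 hw1
  have hM₀pos : 0 < M₀ := hd₀pos.trans_le hdM
  set κ := d₀ / 8 with hκ
  have hκpos : 0 < κ := by positivity
  set S := 2 * M₀ with hS
  have hSpos : 0 < S := by positivity
  have hκS : closedBall y κ ⊆ ball y S := closedBall_subset_ball (by linarith)
  obtain ⟨P, hPot⟩ := hpotx n p volume a α β y S y κ hD.opa hκpos hκS
  have hharm := hpharm n p volume a α β y S y κ P hD.opa hPot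
  have hVo : IsOpen (ball y S \ closedBall y κ) := isOpen_ball.sdiff isClosed_closedBall
  have hUo : IsOpen (Ω ∩ f ⁻¹' (ball y S \ closedBall y κ)) :=
    hf.cont.isOpen_inter_preimage hf.isOpen hVo
  have h1 := (hhalg n p volume b α' β' _ _ hD.opb hUo (hf.mor _ P hVo hharm)).1 1
  have hsub : closedBall x (64 * (r / 128)) ⊆ Ω ∩ f ⁻¹' (ball y S \ closedBall y κ) := by
    intro w hw
    have hw' : w ∈ closedBall x (r / 2) := by
      have : 64 * (r / 128) = r / 2 := by ring
      rwa [this] at hw
    refine ⟨hKΩ hw', ?_, ?_⟩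
    · rw [mem_ball]
      have := hmax' w hw'
      linarith
    · rw [mem_closedBall, not_le]
      have := hmin' w hw'
      linarith
  have h2 := hH _ _ x (r / 128) hUo h1 (by positivity) hsub
    (fun w _ => by
      have := (hPot.2.2.1 (f w)).2
      simp only [Function.comp]
      linarith) z hz x (mem_closedBall_self (by positivity))
  simp only [Function.comp] at h2
  have hz2 : z ∈ closedBall x (r / 2) := closedBall_subset_closedBall (by linarith) hz
  have hx2 : x ∈ closedBall x (r / 2) := mem_closedBall_self (by positivity)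
  have hx3 := hmin' x hx2
  have hx4 := hmax' x hx2
  have hz3 := hmin' z hz2
  have hz4 := hmax' z hz2
  have h3 : 1 - P (f x) ≤ C * (dist (f x) y / S) ^ al n p :=
    (hP y S κ (dist (f x) y) P hPot (by linarith) (by linarith)).1 (f x)
      ⟨mem_closedBall.2 le_rfl, fun h => by have := mem_closedBall.1 h; linarith⟩
  have h4 : c * (dist (f z) y / S) ^ al n p ≤ 1 - P (f z) :=
    (hP y S κ (dist (f z) y) P hPot (by linarith) (by linarith)).2 (f z)
      ⟨mem_ball.2 (by linarith), fun h => by have := mem_ball.1 h; linarith⟩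
  set s := dist (f z) y with hs
  set t := dist (f x) y with ht
  have hs0 : 0 < s := by linarith
  have ht0 : 0 < t := by linarith
  have h5 : (s / S) ^ al n p ≤ CH * C / c * (t / S) ^ al n p := by
    rw [div_mul_eq_mul_div, le_div_iff₀ hc]
    have := mul_le_mul_of_nonneg_left h3 (by linarith : (0 : ℝ) ≤ CH)
    nlinarith
  have h6 : s / S ≤ (CH * C / c) ^ (1 / al n p) * (t / S) := by
    have e1 : s / S = ((s / S) ^ al n p) ^ (1 / al n p) := by
      rw [← Real.rpow_mul (by positivity), mul_one_div_cancel hal.ne', Real.rpow_one]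
    have e2 : t / S = ((t / S) ^ al n p) ^ (1 / al n p) := by
      rw [← Real.rpow_mul (by positivity), mul_one_div_cancel hal.ne', Real.rpow_one]
    rw [e1]
    conv_rhs => rw [e2]
    rw [← Real.mul_rpow hq.le (by positivity)]
    exact Real.rpow_le_rpow (by positivity) h5 (by positivity)
  rw [mul_div_assoc', div_le_div_iff_of_pos_right hSpos] at h6
  exact h6

end Pool.Agent.Lib.MP_abd978_an.UN.H38
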